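import Pool.Agent.W37.SG.Stm

/-!
Subtask SG-UNI of project SG (MP_9a3597_al): the dimensions `a j` are eventually constant.
-/

namespace Pool.Agent.W883.SG.Uni

open Pool.Agent.W37.SG

lemma U_mono (p : ℕ) {m n : ℕ} (h : m ≤ n) : U p m ≤ U p n := by
  apply Submodule.span_mono
  rintro f ⟨i, hi, rfl⟩
  exact ⟨i, lt_of_lt_of_le hi h, rfl⟩

lemma U_zero (p : ℕ) : U p 0 = ⊥ := by
  unfold U
  rw [Submodule.span_eq_bot]
  rintro f ⟨i, hi, _⟩
  omega

lemma mon_zero (p : ℕ) : mon p 0 = fun _ => 1 := by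
  funext x; simp [mon]

lemma range_mon (p n : ℕ) :
    Set.range (fun i : Fin n => mon p i) = {f | ∃ i < n, f = mon p i} := by
  ext f
  constructor
  · rintro ⟨i, rfl⟩
    exact ⟨i, i.2, rfl⟩
  · rintro ⟨i, hi, rfl⟩
    exact ⟨⟨i, hi⟩, rfl⟩

lemma linIndep (D1 : S_D1) (p : ℕ) [Fact p.Prime] (n : ℕ) :
    LinearIndependent (ZMod p) (fun i : Fin n => mon p i) := by
  induction n with
  | zero => exact linearIndependent_empty_type
  | succ n ih =>
    rw [linearIndependent_finSucc']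
    refine ⟨ih, ?_⟩
    intro h
    apply D1 p n
    unfold U
    rw [← range_mon]
    exact h

lemma card_U (D1 : S_D1) (p : ℕ) [Fact p.Prime] (n : ℕ) :
    Finite (U p n) ∧ Nat.card (U p n) = p ^ n := by
  have h1 : U p n = Submodule.span (ZMod p) (Set.range (fun i : Fin n => mon p i)) := by
    rw [range_mon]; rfl
  have h2 : Module.Finite (ZMod p) (U p n) := by
    rw [h1]
    exact Module.Finite.span_of_finite _ (Set.finite_range _)
  have h3 : Module.finrank (ZMod p) (U p n) = n := by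
    rw [h1, finrank_span_eq_card (linIndep D1 p n), Fintype.card_fin]
  refine ⟨Module.finite_of_finite (ZMod p), ?_⟩
  rw [Module.natCard_eq_pow_finrank (K := ZMod p), h3, Nat.card_zmod]

lemma comm_pow {G : Type*} [Group G] (Q N : Subgroup G)
    (hN : ∀ g ∈ Q, ∀ w ∈ N, g⁻¹ * w * g ∈ N) (u v : G) (hu : u ∈ Q) (hv : v ∈ Q)
    (hc : cm u v ∈ N) (k : ℕ) : (u ^ k * v ^ k)⁻¹ * (u * v) ^ k ∈ N := by
  have hn : (N.subgroupOf Q).Normal := by
    constructor
    intro w hw g
    rw [Subgroup.mem_subgroupOf] at hw ⊢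
    have := hN (g⁻¹ : Q) (g⁻¹).2 w hw
    simpa using this
  set u' : Q := ⟨u, hu⟩
  set v' : Q := ⟨v, hv⟩
  have h1 : Commute (QuotientGroup.mk (s := N.subgroupOf Q) u')
      (QuotientGroup.mk (s := N.subgroupOf Q) v') := by
    have h2 : (QuotientGroup.mk (s := N.subgroupOf Q) (v' * u')) =
        (QuotientGroup.mk (s := N.subgroupOf Q) (u' * v')) := by
      rw [QuotientGroup.eq, Subgroup.mem_subgroupOf]
      have : (((v' * u')⁻¹ * (u' * v') : Q) : G) = cm u v := by
        simp only [cm, u', v', Subgroup.coe_mul, Subgroup.coe_inv, mul_inv_rev]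
        group
      rw [this]; exact hc
    show _ * _ = _ * _
    rw [← QuotientGroup.mk_mul, ← QuotientGroup.mk_mul, h2]
  have h3 := h1.mul_pow k
  rw [← QuotientGroup.mk_mul, ← QuotientGroup.mk_pow, ← QuotientGroup.mk_pow,
    ← QuotientGroup.mk_pow, ← QuotientGroup.mk_mul] at h3
  have h4 := h3.symm
  rw [QuotientGroup.eq, Subgroup.mem_subgroupOf] at h4
  simpa [u', v'] using h4

section lab
variable {p : ℕ}

lemma inv_ap (g : Pm p) (x : ℕ → ZMod p) : g⁻¹ (g x) = x := Equiv.symm_apply_apply g x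

lemma ap_inv (g : Pm p) (x : ℕ → ZMod p) : g (g⁻¹ x) = x := Equiv.apply_symm_apply g x

lemma isKer_mul {k : ℕ} {g h : Pm p} (hg : IsKer p k g) (hh : IsKer p k h) :
    IsKer p k (g * h) := by
  intro x i hi
  rw [Equiv.Perm.mul_apply, hg _ i hi, hh _ i hi]

lemma isKer_one (k : ℕ) : IsKer p k (1 : Pm p) := fun _ _ _ => rfl

lemma isKer_inv {k : ℕ} {g : Pm p} (hg : IsKer p k g) : IsKer p k g⁻¹ := by
  intro x i hi
  have := hg (g⁻¹ x) i hi
  rw [ap_inv] at this
  exact this.symm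

lemma isKer_pow {k : ℕ} {g : Pm p} (hg : IsKer p k g) (m : ℕ) : IsKer p k (g ^ m) := by
  induction m with
  | zero => rw [pow_zero]; exact isKer_one k
  | succ m ih => rw [pow_succ]; exact isKer_mul ih hg

lemma lab_mul {k : ℕ} {g h : Pm p} {f e : Fn p} (tg : IsTri p g)
    (hh : IsKer p k h) (lg : ∀ x, g x k = x k + f x)
    (lh : ∀ x, h x k = x k + e x) : ∀ x, (g * h) x k = x k + (f x + e x) := by
  intro x
  have h1 := tg k (h x) x (fun i hi => hh x i hi)
  rw [Equiv.Perm.mul_apply]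
  have h2 : g (h x) k = h x k + (g x k - x k) := by rw [← h1]; ring
  rw [h2, lh, lg]; ring

lemma lab_inv {k : ℕ} {g : Pm p} {f : Fn p} (tg : IsTri p g⁻¹)
    (hg : IsKer p k g) (lg : ∀ x, g x k = x k + f x) : ∀ x, g⁻¹ x k = x k + - f x := by
  intro x
  have h1 := tg k (g x) x (fun i hi => hg x i hi)
  rw [inv_ap, lg] at h1
  have : g⁻¹ x k = x k + (x k - (x k + f x)) := by rw [h1]; ring
  rw [this]; ring

lemma lab_pow {k : ℕ} {g : Pm p} {f : Fn p} (tg : IsTri p g)
    (hg : IsKer p k g) (lg : ∀ x, g x k = x k + f x) (m : ℕ) :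
    ∀ x, (g ^ m) x k = x k + (m : ZMod p) * f x := by
  induction m with
  | zero => intro x; simp
  | succ m ih =>
    intro x
    rw [pow_succ', lab_mul (e := fun x => (m : ZMod p) * f x) tg (isKer_pow hg m) lg ih]
    push_cast; ring

lemma conj_lab {k : ℕ} {g u : Pm p} (tg : IsTri p g⁻¹) (hu : IsKer p k u) :
    IsKer p k (g⁻¹ * u * g) ∧
      ∀ x, (g⁻¹ * u * g) x k = x k + (u (g x) k - (g x) k) := by
  have key : ∀ x, ∀ i ≤ k, (g⁻¹ * u * g) x i = x i + (u (g x) i - (g x) i) := by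
    intro x i hi
    have h1 := tg i (u (g x)) (g x) (fun j hj => hu _ j (lt_of_lt_of_le hj hi))
    rw [inv_ap] at h1
    rw [Equiv.Perm.mul_apply, Equiv.Perm.mul_apply]
    have : g⁻¹ (u (g x)) i = u (g x) i + (x i - (g x) i) := by rw [← h1]; ring
    rw [this]; ring
  refine ⟨?_, fun x => key x k le_rfl⟩
  intro x i hi
  rw [key x i hi.le, hu _ i hi]; ring

end lab

theorem main : S_UNI := by
  intro D1 D2 D3 D4 D5 DC XP p _ s Q X Γ j0 n a B tri tau hX hG hB
  have XP' := XP D1 D3 D4 DC p s Q X tri hX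
  have triI : ∀ g ∈ Q, IsTri p g⁻¹ := fun g hg => tri _ (Q.inv_mem hg)
  -- the kernels
  have hK : ∀ j, j0 ≤ j → ∀ g, g ∈ Γ (n j) ↔ g ∈ Q ∧ IsKer p j g := by
    intro j hj g
    have h1 := hG.blk j hj 0 (Nat.zero_le _) g
    rw [Nat.add_zero, Nat.sub_zero] at h1
    rw [h1]
    constructor
    · rintro ⟨h2, h3, _⟩; exact ⟨h2, h3⟩
    · rintro ⟨h2, h3⟩
      refine ⟨h2, h3, ?_⟩
      rw [hG.lab j]
      exact ⟨g, h2, h3, fun x => by ring⟩
  -- the powers of X
  have hXj : ∀ j, s ≤ j → ∃ Y ∈ Q, IsKer p j Y ∧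
      (∃ c : ZMod p, c ≠ 0 ∧ ∀ x, Y x j = x j + c) ∧
      ∃ c : ZMod p, c ≠ 0 ∧ ∀ x, (Y ^ p) x (j + 1) = x (j + 1) + c := by
    intro j hj
    obtain ⟨m, rfl⟩ := Nat.exists_eq_add_of_le hj
    refine ⟨X ^ p ^ m, Q.pow_mem hX.mem _, (XP' m).2.2.1, (XP' m).2.2.2, ?_⟩
    have h1 := (XP' (m + 1)).2.2.2
    rw [← pow_mul, ← pow_succ]
    exact h1
  have hcst : ∀ j, s ≤ j → 1 ≤ a j := by
    intro j hj
    obtain ⟨Y, hY, kY, ⟨c, hc, hl⟩, _⟩ := hXj j hj
    by_contra h0
    have h0' : a j = 0 := by omega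
    have h1 : (fun _ => c : Fn p) ∈ U p (a j) := by
      rw [hG.lab j]
      exact ⟨Y, hY, kY, hl⟩
    rw [h0', U_zero, Submodule.mem_bot] at h1
    exact hc (congrFun h1 (fun _ => 0))
  -- growth of n
  set m0 := max j0 s with hm0
  have hj0 : j0 ≤ m0 := le_max_left _ _
  have hs0 : s ≤ m0 := le_max_right _ _
  have hn : ∀ t, t + 1 ≤ n (m0 + t) + 1 := by
    intro t
    induction t with
    | zero => omega
    | succ t ih =>
      have h1 := hG.nstep (m0 + t) (by omega)
      have h2 := hcst (m0 + t) (by omega)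
      rw [← Nat.add_assoc, h1]
      omega
  have hmono : ∀ i j, j0 ≤ i → i ≤ j → n i ≤ n j := by
    intro i j hi hij
    induction j, hij using Nat.le_induction with
    | base => exact le_rfl
    | succ j hij ih =>
      rw [hG.nstep j (by omega)]; omega
  set j1 := m0 + 1 + 2 * B with hj1
  have hB' : ∀ j, m0 + 1 ≤ j → a j ≤ B := by
    intro j hj
    obtain ⟨i, rfl⟩ : ∃ i, j = i + 1 := ⟨j - 1, by omega⟩
    exact hB i (by omega) (by omega)
  -- commutators
  have hcm : ∀ j, j1 ≤ j → ∀ u ∈ Q, ∀ v ∈ Q, IsKer p j u → IsKer p j v →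
      cm u v ∈ Γ (n (j + 2)) := by
    intro j hj u hu v hv ku kv
    have hj' : j0 ≤ j := by omega
    have h1 : u ∈ Γ (n j) := (hK j hj' u).2 ⟨hu, ku⟩
    have h2 : v ∈ Γ (n j) := (hK j hj' v).2 ⟨hv, kv⟩
    have hnp : 1 ≤ n j := le_trans hG.npos (hmono j0 j le_rfl hj')
    have h3 := hG.comm (n j) (n j) hnp hnp u h1 v h2
    refine hG.anti ?_ h3
    have e1 := hG.nstep j hj'
    have e2 := hG.nstep (j + 1) (by omega)
    have b1 := hB' j (by omega)
    have b2 := hB' (j + 1) (by omega)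
    obtain ⟨t, rfl⟩ : ∃ t, j = m0 + t := ⟨j - m0, by omega⟩
    have b3 := hn t
    have : n (m0 + t + 2) = n (m0 + t) + a (m0 + t) + a (m0 + t + 1) := by
      rw [← e1]; exact e2
    rw [this]
    omega
  have hpw : ∀ j, j1 ≤ j → ∀ u ∈ Q, ∀ v ∈ Q, IsKer p j u → IsKer p j v →
      IsKer p (j + 2) ((u ^ p * v ^ p)⁻¹ * (u * v) ^ p) := by
    intro j hj u hu v hv ku kv
    have h1 := comm_pow Q (Γ (n (j + 2))) ?_ u v hu hv (hcm j hj u hu v hv ku kv) p
    · exact ((hK (j + 2) (by omega) _).1 h1).2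
    · intro g hg w hw
      rw [hK (j + 2) (by omega)] at hw ⊢
      exact ⟨Q.mul_mem (Q.mul_mem (Q.inv_mem hg) hw.1) hg, (conj_lab (triI g hg) hw.2).1⟩
  have hkp : ∀ j, ∀ u ∈ Q, IsKer p j u → IsKer p (j + 1) (u ^ p) := by
    intro j u hu ku x i hi
    rcases Nat.lt_succ_iff_lt_or_eq.1 hi with h | h
    · exact isKer_pow ku p x i h
    · subst h
      have := lab_pow (f := fun x => u x i - x i) (tri u hu) ku (fun x => by ring) p x
      rw [this]; simp
  -- the submodule
  have hWz : ∀ j, j1 ≤ j → ∀ f : Fn p, (∃ u ∈ Q, IsKer p j u ∧ (∀ x, u x j = x j + f x) ∧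
      IsKer p (j + 2) (u ^ p)) → f = 0 := by
    intro j hj
    let S : AddSubgroup (Fn p) :=
      { carrier := {f | ∃ u ∈ Q, IsKer p j u ∧ (∀ x, u x j = x j + f x) ∧
          IsKer p (j + 2) (u ^ p)}
        zero_mem' := ⟨1, Q.one_mem, isKer_one j, fun x => by simp, by
          rw [one_pow]; exact isKer_one _⟩
        add_mem' := by
          rintro f e ⟨u, hu, ku, lu, pu⟩ ⟨v, hv, kv, lv, pv⟩
          refine ⟨u * v, Q.mul_mem hu hv, isKer_mul ku kv, lab_mul (tri u hu) kv lu lv, ?_⟩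
          have h1 := hpw j hj u hu v hv ku kv
          have h2 := isKer_mul (isKer_mul pu pv) h1
          rwa [mul_inv_cancel_left] at h2
        neg_mem' := by
          rintro f ⟨u, hu, ku, lu, pu⟩
          refine ⟨u⁻¹, Q.inv_mem hu, isKer_inv ku, lab_inv (triI u hu) ku lu, ?_⟩
          rw [inv_pow]
          exact isKer_inv pu }
    let W : Submodule (ZMod p) (Fn p) := AddSubgroup.toZModSubmodule p S
    have hW : ∀ f, f ∈ W ↔ ∃ u ∈ Q, IsKer p j u ∧ (∀ x, u x j = x j + f x) ∧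
          IsKer p (j + 2) (u ^ p) := fun f => Iff.rfl
    obtain ⟨r, hr, hWr⟩ := D5 D1 D2 p j Q tri (fun v _ => tau v) W
      (by
        intro f hf
        obtain ⟨u, hu, ku, lu, _⟩ := (hW f).1 hf
        exact U_mono p (hG.ale j) ((hG.lab j f).2 ⟨u, hu, ku, lu⟩))
      (by
        intro g hg f hf
        obtain ⟨u, hu, ku, lu, pu⟩ := (hW f).1 hf
        rw [hW]
        refine ⟨g⁻¹ * u * g, Q.mul_mem (Q.mul_mem (Q.inv_mem hg) hu) hg,
          (conj_lab (triI g hg) ku).1, ?_, ?_⟩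
        · intro x
          rw [(conj_lab (triI g hg) ku).2, lu]; ring
        · have h1 : (g⁻¹ * u * g) ^ p = g⁻¹ * u ^ p * g := by
            have := conj_pow (a := g⁻¹) (b := u) (i := p)
            rwa [inv_inv] at this
          rw [h1]
          exact (conj_lab (triI g hg) pu).1)
    rcases Nat.eq_zero_or_pos r with h0 | hrpos
    · intro f hf
      have h1 : f ∈ W := (hW f).2 hf
      rw [hWr, h0, U_zero, Submodule.mem_bot] at h1
      exact h1
    · exfalso
      obtain ⟨Y, hY, kY, ⟨c, hc, hl⟩, c', hc', hl'⟩ := hXj j (by omega)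
      have h1 : (fun _ => 1 : Fn p) ∈ W := by
        rw [hWr, ← mon_zero]
        exact Submodule.subset_span ⟨0, hrpos, rfl⟩
      have h2 : (fun _ => c : Fn p) ∈ W := by
        have := W.smul_mem c h1
        convert this using 1
        funext x; simp
      obtain ⟨u, hu, ku, lu, pu⟩ := (hW _).1 h2
      have hwQ : u⁻¹ * Y ∈ Q := Q.mul_mem (Q.inv_mem hu) hY
      have hwl := lab_mul (triI u hu) kY (lab_inv (triI u hu) ku lu) hl
      have hwk : IsKer p (j + 1) (u⁻¹ * Y) := by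
        intro x i hi
        rcases Nat.lt_succ_iff_lt_or_eq.1 hi with h | h
        · exact isKer_mul (isKer_inv ku) kY x i h
        · subst h
          rw [hwl]; ring
      have hwp := hkp (j + 1) _ hwQ hwk
      have h3 := hpw j hj u hu _ hwQ ku (fun x i hi => hwk x i (by omega))
      have h4 := isKer_mul (isKer_mul pu hwp) h3
      rw [mul_inv_cancel_left, mul_inv_cancel_left] at h4
      have h5 := h4 (fun _ => 0) (j + 1) (by omega)
      rw [hl'] at h5
      apply hc'
      simpa using h5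
  -- monotone
  have hstep : ∀ j, j1 ≤ j → a j ≤ a (j + 1) := by
    intro j hj
    have hch : ∀ f : U p (a j), ∃ u ∈ Q, IsKer p j u ∧ ∀ x, u x j = x j + f.1 x :=
      fun f => (hG.lab j f.1).1 f.2
    choose u hu ku lu using hch
    let Φ : U p (a j) → U p (a (j + 1)) := fun f =>
      ⟨fun x => ((u f) ^ p) x (j + 1) - x (j + 1), by
        rw [hG.lab]
        exact ⟨(u f) ^ p, Q.pow_mem (hu f) _, hkp j _ (hu f) (ku f), fun x => by ring⟩⟩
    have hΦ : Function.Injective Φ := by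
      intro f e hfe
      have h1 : ∀ x, ((u f) ^ p) x (j + 1) = ((u e) ^ p) x (j + 1) := by
        intro x
        have := congrFun (congrArg Subtype.val hfe) x
        simpa [Φ] using this
      have h2 := hWz j hj (f.1 + - e.1) ⟨u f * (u e)⁻¹, Q.mul_mem (hu f) (Q.inv_mem (hu e)),
        isKer_mul (ku f) (isKer_inv (ku e)),
        lab_mul (tri _ (hu f)) (isKer_inv (ku e)) (lu f)
          (lab_inv (triI _ (hu e)) (ku e) (lu e)), ?_⟩
      · apply Subtype.ext
        have := h2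
        rwa [← sub_eq_add_neg, sub_eq_zero] at this
      · have h3 := hpw j hj (u f) (hu f) (u e)⁻¹ (Q.inv_mem (hu e)) (ku f) (isKer_inv (ku e))
        have hkf := hkp j _ (hu f) (ku f)
        have hke := hkp j _ (hu e) (ku e)
        have h4 : IsKer p (j + 2) ((u f) ^ p * ((u e)⁻¹) ^ p) := by
          rw [inv_pow]
          have hl := lab_mul (k := j + 1) (f := fun x => ((u f) ^ p) x (j + 1) - x (j + 1))
            (tri _ (Q.pow_mem (hu f) p)) (isKer_inv hke) (fun x => by ring)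
            (lab_inv (f := fun x => ((u e) ^ p) x (j + 1) - x (j + 1))
              (triI _ (Q.pow_mem (hu e) p)) hke (fun x => by ring))
          intro x i hi
          rcases Nat.lt_succ_iff_lt_or_eq.1 hi with h | h
          · exact isKer_mul hkf (isKer_inv hke) x i h
          · subst h
            rw [hl, h1]; ring
        have h5 := isKer_mul h4 h3
        rwa [mul_inv_cancel_left] at h5
    obtain ⟨hf1, hc1⟩ := card_U D1 p (a j)
    obtain ⟨hf2, hc2⟩ := card_U D1 p (a (j + 1))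
    have h6 := Nat.card_le_card_of_injective Φ hΦ
    rw [hc1, hc2] at h6
    exact (Nat.pow_le_pow_iff_right (Fact.out : p.Prime).one_lt).1 h6
  have hmon : ∀ i j, j1 ≤ i → i ≤ j → a i ≤ a j := by
    intro i j hi hij
    induction j, hij using Nat.le_induction with
    | base => exact le_rfl
    | succ j hij ih => exact le_trans ih (hstep j (by omega))
  have hfin : ∀ d, ∀ J, j1 ≤ J → B - a J ≤ d → ∃ J', J ≤ J' ∧ ∀ j, J' ≤ j → a j = a J' := by
    intro d
    induction d with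
    | zero =>
      intro J hJ hd
      refine ⟨J, le_rfl, fun j hj => ?_⟩
      have h1 := hmon J j hJ hj
      have h2 := hB' j (by omega)
      omega
    | succ d ih =>
      intro J hJ hd
      by_cases h : ∃ j, J ≤ j ∧ a j ≠ a J
      · obtain ⟨j, hj, hne⟩ := h
        have h1 := hmon J j hJ hj
        have h2 := hB' j (by omega)
        obtain ⟨J', hJ', h3⟩ := ih j (by omega) (by omega)
        exact ⟨J', by omega, h3⟩
      · push Not at h
        exact ⟨J, le_rfl, h⟩
  obtain ⟨J, hJ, hJc⟩ := hfin (B - a j1) j1 le_rfl le_rfl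
  exact ⟨J, a J, by omega, by omega, hcst J (by omega), hJc⟩

end Pool.Agent.W883.SG.Uni
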